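import Pool.Agent.H.MP_833c47_lc.C

namespace Pool.Agent.Results.MP_833c47_lc.NPC
open Pool.Agent.Lib.CX Pool.Agent.H.MP_833c47_lc List

/-- `n`, two edge-disjoint Hamiltonian paths on `0, …, n - 1`, and the bound `M` -/
abbrev Inst := {I : ℕ × List ℕ × List ℕ × ℕ // I.2.1 ~ range I.1 ∧ I.2.2.1 ~ range I.1 ∧
  ∀ u v, ¬(Adj I.2.1 u v ∧ Adj I.2.2.1 u v)}

/-- the global domination number is at most `M` -/
def GD (I : Inst) : Prop := ∃ D ⊆ Finset.range I.1.1, D.card ≤ I.1.2.2.2 ∧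
  Dom I.1.2.1 (· ∈ D) ∧ Dom I.1.2.2.1 (· ∈ D)

lemma inf_iff {u v : ℕ} : ∀ {P : List ℕ}, [u, v] <:+: P ↔ (u, v) ∈ P.zip P.tail
  | [] => by simp
  | [x] => by simp [infix_cons_iff]
  | x :: y :: P => by
    rw [infix_cons_iff, inf_iff (P := y :: P)]
    simp

def Dm (P c : List ℕ) : Prop := ∀ v ∈ P, v ∈ c ∨ ∃ u ∈ c, (u, v) ∈ P.zip P.tail ∨ (v, u) ∈ P.zip P.tail

lemma dm_iff {P c : List ℕ} : Dm P c ↔ Dom P (· ∈ c.toFinset) := by simp [Dm, Dom, Adj, inf_iff]

instance (P c) : Decidable (Dm P c) := by unfold Dm; infer_instance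

theorem np : InNP GD := by
  refine InNP.of_cert' (fun I (c : List ℕ) => (∀ x ∈ c, x < I.1.1) ∧ c.length ≤ I.1.2.2.2 ∧
    Dm I.1.2.1 c ∧ Dm I.1.2.2.1 c) (fun I => I.1.2.1.length * (3 * I.1.2.1.length + 3) + 2)
    (by unfold Dm; fun_prop) (by fun_prop) ?_ ?_
  · rintro I c ⟨h1, h2, h3, h4⟩
    exact ⟨c.toFinset, fun x hx => by simpa using h1 x (by simpa using hx),
      (toFinset_card_le c).trans h2, dm_iff.1 h3, dm_iff.1 h4⟩
  · rintro I ⟨D, h1, h2, h3, h4⟩
    have l : I.1.2.1.length = I.1.1 := by simpa using I.2.1.length_eq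
    have a : ∀ x ∈ D.toList, x < I.1.1 := fun x hx => by simpa using h1 (Finset.mem_toList.1 hx)
    refine ⟨D.toList, (size_list_le (B := 3 * I.1.1 + 2) fun x hx => ?_).trans ?_, a, by simpa,
      dm_iff.2 (by simpa), dm_iff.2 (by simpa)⟩
    · have := size_nat_le x
      have := a x hx
      omega
    · have := Finset.card_le_card h1
      rw [l]
      gcongr
      simpa using this

def lt (φ : List (Cl3 ℕ)) (o : ℕ) : ℕ × Bool :=
  litOf (φ.getD (o / 3) ((0, true), (0, true), (0, true)), o % 3)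

def red (φ : List (Cl3 ℕ)) : ℕ × List ℕ × List ℕ × ℕ :=
  (78 * φ.length, P1 (fun o => (lt φ o).1) φ.length, P2 (fun o => (lt φ o).2) φ.length, 32 * φ.length)

theorem pt_red : PT red := by
  have h1 : PT fun q : List (Cl3 ℕ) × ℕ => lt q.1 q.2 := by unfold lt litOf; fun_prop
  have h2 : PT fun q : List (Cl3 ℕ) × ℕ => nx (fun o => (lt q.1 o).1) (3 * q.1.length) q.2 := by
    unfold nx lt litOf; fun_prop
  have h3 : PT fun q : (List (Cl3 ℕ) × ℕ) × ℕ => g (fun o => (lt q.1.1 o).1) q.1.1.length q.1.2 q.2 := by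
    have := h2.comp (g := fun q : (List (Cl3 ℕ) × ℕ) × ℕ => (q.1.1, 3 * q.1.2 + q.2 / 12)) (by fun_prop)
    unfold g b; fun_prop
  have h4 : PT fun q : (List (Cl3 ℕ) × ℕ) × ℕ => h (fun o => (lt q.1.1 o).2) q.1.2 q.2 := by
    unfold h sw lt litOf; fun_prop
  have h5 : ∀ o, PT fun φ : List (Cl3 ℕ) => (ch φ.length o).flatMap tri := fun o => by
    unfold ch tri; fun_prop
  have := h5 36
  have := h5 57
  unfold red P1 P2; fun_prop

theorem hard : NPHard GD := by
  refine NPHard.of_sat3 _ (pt_red.subtype fun φ => ⟨perm1, perm2, fun u v h => disj u v h.1 h.2⟩)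
    fun φ _ => ?_
  have e : Sat3 φ ↔ ∃ α : ℕ → Bool, ∀ j < φ.length, ∃ p < 3,
      α (lt φ (3 * j + p)).1 = (lt φ (3 * j + p)).2 := by
    refine exists_congr fun v => (forall_mem_iff_forall_getElem ..).trans (forall₂_congr fun j hj => ?_)
    rw [ok_iff]
    refine exists_congr fun k => and_congr_right fun hk => ?_
    simp [lt, show (3 * j + k) / 3 = j by omega, show (3 * j + k) % 3 = k by omega, hj]
  rw [e]
  refine ⟨fun ⟨α, h⟩ => ?_, fun ⟨D, h1, h2, h3, h4⟩ => ?_⟩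
  · obtain ⟨a1, a2, a3⟩ := suff (va := fun o => (lt φ o).1) (sg := fun o => (lt φ o).2) α h
    have k : ∀ {P : List ℕ} {D : ℕ → Bool}, P ~ range (78 * φ.length) → Dom P (D ·) →
        Dom P (· ∈ ((range (78 * φ.length)).filter D).toFinset) := fun {P D} p h v hv =>
      (h v hv).imp (fun a => by simpa using ⟨by simpa using p.subset hv, a⟩) fun ⟨u, a, b⟩ =>
        ⟨u, by simpa using ⟨by simpa using p.subset (b.elim (·.subset (by simp)) (·.subset (by simp))),
          a⟩, b⟩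
    exact ⟨_, fun x hx => by simp at hx ⊢; exact hx.1, (toFinset_card_le _).trans a3.le, k perm1 a1,
      k perm2 a2⟩
  · refine nec (p := 78 * φ.length) (D := (· ∈ D)) (fun q => by simpa [red] using h1 q)
      (h3.w (perm1.nodup_iff.2 nodup_range) _) (h4.w (perm2.nodup_iff.2 nodup_range) _) ?_
    classical
    exact ((@Finset.card_filter _ (· ∈ D) (fun _ => Classical.propDecidable _) _).ge.trans
      (Finset.card_le_card fun x hx => by simp at hx; exact hx.2)).trans h2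

theorem result : NPComplete GD := ⟨np, hard⟩

end Pool.Agent.Results.MP_833c47_lc.NPC
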